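import Mathlib

/-!
# Every `{1, …, n}` has a partition into parts of at most three elements with sums powers of three

`Good S` : the finite set `S` has such a partition. By strong induction on `n` we show `Good {1..n}` and,
for `n ≡ 2 mod 3`, the property `Top n`: a final interval `{e+1..n}` with `3 ∣ e` can be divided into
pairs with distinct sums `σ ∈ Σ`, such that `{1..P+e} \ (P - Σ)` is good for every power `P > 2 n` of 3.
-/

set_option autoImplicit false

namespace Pool.Agent.Results.MP_b44c8b_co.EveryIntervalThreeGood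

open Finset

/-- `S` has a partition into nonempty parts with at most three elements whose sums are powers of 3 -/
def Good (S : Finset ℕ) : Prop :=
  ∃ P : Finpartition S, ∀ p ∈ P.parts, p.card ≤ 3 ∧ ∃ j : ℕ, ∑ x ∈ p, x = 3 ^ j

theorem good_empty : Good ∅ := ⟨Finpartition.empty _, by simp⟩

theorem good_part {S : Finset ℕ} (h : S.card ≤ 3) (j : ℕ) (hs : ∑ x ∈ S, x = 3 ^ j) : Good S := by
  rcases S.eq_empty_or_nonempty with rfl | hne
  · exact good_empty
  · refine ⟨Finpartition.indiscrete hne.ne_empty, ?_⟩
    intro p hp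
    simp only [Finpartition.indiscrete_parts, Finset.mem_singleton] at hp
    subst hp
    exact ⟨h, j, hs⟩

theorem good_union {S T : Finset ℕ} (hS : Good S) (hT : Good T) (hd : Disjoint S T) :
    Good (S ∪ T) := by
  obtain ⟨P, hP⟩ := hS
  obtain ⟨R, hR⟩ := hT
  refine ⟨⟨P.parts ∪ R.parts, ?_, ?_, ?_⟩, ?_⟩
  · rw [Finset.supIndep_iff_pairwiseDisjoint]
    intro a ha b hb hab
    simp only [Finset.coe_union, Set.mem_union, Finset.mem_coe] at ha hb
    rcases ha with ha | ha <;> rcases hb with hb | hb
    · exact P.disjoint ha hb hab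
    · exact Finset.disjoint_of_subset_left (P.le ha) (Finset.disjoint_of_subset_right (R.le hb) hd)
    · exact Finset.disjoint_of_subset_left (R.le ha)
        (Finset.disjoint_of_subset_right (P.le hb) hd.symm)
    · exact R.disjoint ha hb hab
  · rw [Finset.sup_union, P.sup_parts, R.sup_parts]
    rfl
  · intro h
    rcases Finset.mem_union.1 h with h | h
    · exact P.bot_notMem h
    · exact R.bot_notMem h
  · intro p hp
    rcases Finset.mem_union.1 hp with h | h
    · exact hP p h
    · exact hR p h

theorem good_biUnion {ι : Type} [DecidableEq ι] (I : Finset ι) (f : ι → Finset ℕ)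
    (h : ∀ i ∈ I, Good (f i)) (hd : ∀ i ∈ I, ∀ j ∈ I, i ≠ j → Disjoint (f i) (f j)) :
    Good (I.biUnion f) := by
  induction I using Finset.induction_on with
  | empty => simpa using good_empty
  | insert a s ha ih =>
    rw [Finset.biUnion_insert]
    apply good_union (h a (Finset.mem_insert_self _ _))
    · exact ih (fun i hi => h i (Finset.mem_insert_of_mem hi))
        (fun i hi j hj hij => hd i (Finset.mem_insert_of_mem hi) j (Finset.mem_insert_of_mem hj) hij)
    · rw [Finset.disjoint_biUnion_right]
      intro i hi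
      exact hd a (Finset.mem_insert_self _ _) i (Finset.mem_insert_of_mem hi)
        (fun hh => ha (hh ▸ hi))

/-- a family of triples -/
theorem good_triples {S : Finset ℕ} (k j : ℕ) (a b c : ℕ → ℕ)
    (hS : ∀ x, x ∈ S ↔ ∃ t < k, x = a t ∨ x = b t ∨ x = c t)
    (hs : ∀ t < k, a t + b t + c t = 3 ^ j ∧ a t ≠ b t ∧ a t ≠ c t ∧ b t ≠ c t)
    (hd : ∀ t < k, ∀ u < k, t ≠ u → a t ≠ a u ∧ a t ≠ b u ∧ a t ≠ c u ∧ b t ≠ b u ∧ b t ≠ c u ∧
      c t ≠ c u) : Good S := by
  have : S = (Finset.range k).biUnion fun t => {a t, b t, c t} := by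
    ext x
    simp [hS]
  rw [this]
  apply good_biUnion
  · intro t ht
    obtain ⟨h1, h2, h3, h4⟩ := hs t (Finset.mem_range.1 ht)
    apply good_part Finset.card_le_three j
    rw [Finset.sum_insert (by simp [h2, h3]), Finset.sum_insert (by simp [h4]), Finset.sum_singleton]
    omega
  · intro t ht u hu htu
    have h1 := hd t (Finset.mem_range.1 ht) u (Finset.mem_range.1 hu) htu
    have h2 := hd u (Finset.mem_range.1 hu) t (Finset.mem_range.1 ht) htu.symm
    rw [Finset.disjoint_left]
    intro x hx hx'
    simp only [Finset.mem_insert, Finset.mem_singleton] at hx hx'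
    omega

theorem good_single (j : ℕ) : Good {3 ^ j} := good_part (by simp) j (by simp)

theorem good_triple {x y z : ℕ} (j : ℕ) (h : x + y + z = 3 ^ j) (h1 : x ≠ y) (h2 : x ≠ z)
    (h3 : y ≠ z) : Good {x, y, z} := by
  apply good_part Finset.card_le_three j
  rw [Finset.sum_insert (by simp [h1, h2]), Finset.sum_insert (by simp [h3]), Finset.sum_singleton]
  omega

theorem pow_odd (j : ℕ) : 3 ^ j % 2 = 1 := by
  induction j with
  | zero => rfl
  | succ n ih => rw [pow_succ]; omega

/-- pairs `x, P - x` -/
theorem good_refl (j : ℕ) (X : Finset ℕ) (hX : ∀ x ∈ X, 2 * x < 3 ^ j) :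
    Good (X ∪ X.image fun x => 3 ^ j - x) := by
  have : X ∪ X.image (fun x => 3 ^ j - x) = X.biUnion fun x => {x, 3 ^ j - x} := by
    ext y
    simp only [Finset.mem_union, Finset.mem_image, Finset.mem_biUnion, Finset.mem_insert,
      Finset.mem_singleton]
    constructor
    · rintro (h | ⟨x, hx, rfl⟩)
      · exact ⟨y, h, Or.inl rfl⟩
      · exact ⟨x, hx, Or.inr rfl⟩
    · rintro ⟨x, hx, rfl | rfl⟩
      · exact Or.inl hx
      · exact Or.inr ⟨x, hx, rfl⟩
  rw [this]
  apply good_biUnion
  · intro x hx
    have h := hX x hx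
    apply good_part (Finset.card_le_two.trans (by norm_num)) j
    rw [Finset.sum_insert (by simp; omega), Finset.sum_singleton]
    omega
  · intro x hx y hy hxy
    have h1 := hX x hx
    have h2 := hX y hy
    rw [Finset.disjoint_left]
    intro z hz hz'
    simp only [Finset.mem_insert, Finset.mem_singleton] at hz hz'
    omega

/-- an interval symmetric to half a power of three -/
theorem good_sym (j a b : ℕ) (h : a + b = 3 ^ j) : Good (Finset.Icc a b) := by
  have h2 := pow_odd j
  have h1 : Finset.Icc a b = Finset.Icc a (3 ^ j / 2) ∪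
      (Finset.Icc a (3 ^ j / 2)).image fun x => 3 ^ j - x := by
    ext y
    simp only [Finset.mem_union, Finset.mem_image, Finset.mem_Icc]
    constructor
    · rintro ⟨h3, h4⟩
      by_cases h5 : y ≤ 3 ^ j / 2
      · exact Or.inl ⟨h3, h5⟩
      · exact Or.inr ⟨3 ^ j - y, by omega, by omega⟩
    · rintro (h3 | ⟨x, h3, rfl⟩)
      · omega
      · omega
  rw [h1]
  apply good_refl
  intro x hx
  rw [Finset.mem_Icc] at hx
  omega

/-- `P ± {1..3k}` -/
theorem good_zero (j k : ℕ) (h : 3 * k < 3 ^ j) :
    Good ((Finset.Icc (3 ^ j - 3 * k) (3 ^ j + 3 * k)).erase (3 ^ j)) := by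
  have hd : (Finset.Icc (3 ^ j - 3 * k) (3 ^ j + 3 * k)).erase (3 ^ j) =
      ((Finset.range k).biUnion fun t =>
        {3 ^ j + (k + 1 + 2 * t), 3 ^ j - (2 * k + 1 + t), 3 ^ j + (k - t)}) ∪
      ((Finset.range k).biUnion fun t =>
        {3 ^ j + (k + 2 * t + 2), 3 ^ j - (k + t + 1), 3 ^ j - (t + 1)}) := by
    ext x
    simp only [Finset.mem_erase, Finset.mem_Icc, Finset.mem_union, Finset.mem_biUnion,
      Finset.mem_range, Finset.mem_insert, Finset.mem_singleton]
    generalize 3 ^ j = P at h ⊢
    constructor
    · rintro ⟨h1, h2, h3⟩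
      rcases Nat.lt_or_ge P x with h4 | h4
      · rcases Nat.lt_or_ge (P + k) x with h5 | h5
        · rcases Nat.even_or_odd' (x - (P + k + 1)) with ⟨t, ht | ht⟩
          · exact Or.inl ⟨t, by omega, by omega⟩
          · exact Or.inr ⟨t, by omega, by omega⟩
        · exact Or.inl ⟨P + k - x, by omega, by omega⟩
      · rcases Nat.lt_or_ge x (P - k) with h5 | h5
        · rcases Nat.lt_or_ge x (P - 2 * k) with h6 | h6
          · exact Or.inl ⟨P - 2 * k - 1 - x, by omega, by omega⟩
          · exact Or.inr ⟨P - k - 1 - x, by omega, by omega⟩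
        · exact Or.inr ⟨P - 1 - x, by omega, by omega⟩
    · rintro (⟨t, ht, hx⟩ | ⟨t, ht, hx⟩) <;> omega
  rw [hd]
  apply good_union
  · refine good_triples k (j + 1) (fun t => 3 ^ j + (k + 1 + 2 * t)) (fun t => 3 ^ j - (2 * k + 1 + t))
      (fun t => 3 ^ j + (k - t)) (by intro x; simp) ?_ ?_
    · intro t ht
      rw [pow_succ]
      omega
    · intro t ht u hu htu
      omega
  · refine good_triples k (j + 1) (fun t => 3 ^ j + (k + 2 * t + 2)) (fun t => 3 ^ j - (k + t + 1))
      (fun t => 3 ^ j - (t + 1)) (by intro x; simp) ?_ ?_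
    · intro t ht
      rw [pow_succ]
      omega
    · intro t ht u hu htu
      omega
  · rw [Finset.disjoint_left]
    intro x hx hx'
    simp only [Finset.mem_biUnion, Finset.mem_range, Finset.mem_insert, Finset.mem_singleton] at hx hx'
    obtain ⟨t, ht, hx⟩ := hx
    obtain ⟨u, hu, hx'⟩ := hx'
    omega

/-- `P ± {1..3h+1}` and `P` -/
theorem good_one (j h : ℕ) (hh : 3 * h + 1 < 3 ^ j) :
    Good (Finset.Icc (3 ^ j - (3 * h + 1)) (3 ^ j + (3 * h + 1))) := by
  have hd : Finset.Icc (3 ^ j - (3 * h + 1)) (3 ^ j + (3 * h + 1)) =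
      ((Finset.range (h + 1)).biUnion fun t =>
        {3 ^ j + (h + 1 + 2 * t), 3 ^ j - (2 * h + 1 + t), 3 ^ j + (h - t)}) ∪
      ((Finset.range h).biUnion fun t =>
        {3 ^ j + (h + 2 * t + 2), 3 ^ j - (h + t + 1), 3 ^ j - (t + 1)}) := by
    ext x
    simp only [Finset.mem_Icc, Finset.mem_union, Finset.mem_biUnion,
      Finset.mem_range, Finset.mem_insert, Finset.mem_singleton]
    generalize 3 ^ j = P at hh ⊢
    constructor
    · rintro ⟨h2, h3⟩
      rcases Nat.lt_or_ge x P with h4 | h4
      · rcases Nat.lt_or_ge x (P - h) with h5 | h5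
        · rcases Nat.lt_or_ge x (P - 2 * h) with h6 | h6
          · exact Or.inl ⟨P - 2 * h - 1 - x, by omega, by omega⟩
          · exact Or.inr ⟨P - h - 1 - x, by omega, by omega⟩
        · exact Or.inr ⟨P - 1 - x, by omega, by omega⟩
      · rcases Nat.lt_or_ge (P + h) x with h5 | h5
        · rcases Nat.even_or_odd' (x - (P + h + 1)) with ⟨t, ht | ht⟩
          · exact Or.inl ⟨t, by omega, by omega⟩
          · exact Or.inr ⟨t, by omega, by omega⟩
        · exact Or.inl ⟨P + h - x, by omega, by omega⟩
    · rintro (⟨t, ht, hx⟩ | ⟨t, ht, hx⟩) <;> omega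
  rw [hd]
  apply good_union
  · refine good_triples (h + 1) (j + 1) (fun t => 3 ^ j + (h + 1 + 2 * t))
      (fun t => 3 ^ j - (2 * h + 1 + t)) (fun t => 3 ^ j + (h - t)) (by intro x; simp) ?_ ?_
    · intro t ht
      rw [pow_succ]
      omega
    · intro t ht u hu htu
      omega
  · refine good_triples h (j + 1) (fun t => 3 ^ j + (h + 2 * t + 2)) (fun t => 3 ^ j - (h + t + 1))
      (fun t => 3 ^ j - (t + 1)) (by intro x; simp) ?_ ?_
    · intro t ht
      rw [pow_succ]
      omega
    · intro t ht u hu htu
      omega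
  · rw [Finset.disjoint_left]
    intro x hx hx'
    simp only [Finset.mem_biUnion, Finset.mem_range, Finset.mem_insert, Finset.mem_singleton] at hx hx'
    obtain ⟨t, ht, hx⟩ := hx
    obtain ⟨u, hu, hx'⟩ := hx'
    omega

/-- the sums `σ` of pairs, seen from a power of three -/
def Low (Q : ℕ) (T : Finset ℕ) : Finset ℕ := T.image fun σ => Q - σ

theorem mem_low {Q x : ℕ} {T : Finset ℕ} (h : ∀ σ ∈ T, σ ≤ Q) :
    x ∈ Low Q T ↔ x ≤ Q ∧ Q - x ∈ T := by
  simp only [Low, Finset.mem_image]
  constructor
  · rintro ⟨σ, hσ, rfl⟩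
    have := h σ hσ
    exact ⟨by omega, by rwa [show Q - (Q - σ) = σ by omega]⟩
  · rintro ⟨h1, h2⟩
    exact ⟨_, h2, by omega⟩

/-- `e` and `T` describe a division of `{e+1..s}` into pairs with different sums, the elements
of `T` -/
structure Top (s e : ℕ) (T : Finset ℕ) : Prop where
  mod : e % 3 = 0
  lt : e < s
  gt : ∀ σ ∈ T, e < σ
  lt' : ∀ σ ∈ T, σ < 2 * s
  pairs : ∀ A B j : ℕ, 2 * A + B = 3 ^ j → B ≤ A → 2 * s < B →
    Good (Finset.Icc (A + e + 1) (A + s) ∪ Low B T)
  compl : ∀ j : ℕ, 2 * s < 3 ^ j → Good (Finset.Icc 1 (3 ^ j + e) \ Low (3 ^ j) T)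

/-- adding the elements around a large power of three -/
theorem good_add (j e : ℕ) (T : Finset ℕ) (he : e % 3 = 0) (he' : 2 * e < 3 ^ j)
    (h1 : ∀ σ ∈ T, e < σ) (h2 : ∀ σ ∈ T, 2 * σ < 3 ^ j) (h : Good (Finset.Icc 1 e ∪ T)) :
    Good (Finset.Icc 1 (3 ^ j + e) \ Low (3 ^ j) T) := by
  have hodd := pow_odd j
  have hX := good_refl j (Finset.Icc (e + 1) (3 ^ j / 2) \ T) (by
    intro x hx
    rw [Finset.mem_sdiff, Finset.mem_Icc] at hx
    omega)
  obtain ⟨k, hk⟩ : ∃ k, e = 3 * k := ⟨e / 3, by omega⟩
  have hZ := good_zero j k (by omega)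
  rw [← hk] at hZ
  have hP := good_single j
  have e1 : Finset.Icc 1 (3 ^ j + e) \ Low (3 ^ j) T =
      ((Finset.Icc 1 e ∪ T) ∪ ((Finset.Icc (e + 1) (3 ^ j / 2) \ T) ∪
        (Finset.Icc (e + 1) (3 ^ j / 2) \ T).image fun x => 3 ^ j - x)) ∪
      ((Finset.Icc (3 ^ j - e) (3 ^ j + e)).erase (3 ^ j) ∪ {3 ^ j}) := by
    ext x
    simp only [Finset.mem_sdiff, Finset.mem_union, Finset.mem_erase, Finset.mem_Icc,
      Finset.mem_singleton, Finset.mem_image]
    rw [mem_low (fun σ hσ => by have := h2 σ hσ; omega)]
    constructor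
    · rintro ⟨h3, h4⟩
      rcases Nat.lt_or_ge x (3 ^ j - e) with h5 | h5
      · left
        by_cases h6 : x ≤ 3 ^ j / 2
        · by_cases h7 : x ∈ T
          · exact Or.inl (Or.inr h7)
          · by_cases h8 : x ≤ e
            · exact Or.inl (Or.inl ⟨h3.1, h8⟩)
            · exact Or.inr (Or.inl ⟨by omega, h7⟩)
        · refine Or.inr (Or.inr ⟨3 ^ j - x, ⟨by omega, ?_⟩, by omega⟩)
          intro h7
          exact h4 ⟨by omega, h7⟩
      · right
        by_cases h6 : x = 3 ^ j
        · exact Or.inr h6
        · exact Or.inl ⟨h6, h5, h3.2⟩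
    · rintro (((h3 | h3) | h3 | ⟨y, h3, rfl⟩) | h3 | h3)
      · refine ⟨by omega, ?_⟩
        rintro ⟨h4, h5⟩
        have := h2 _ h5
        omega
      · have h4 := h1 x h3
        have h5 := h2 x h3
        refine ⟨by omega, ?_⟩
        rintro ⟨h6, h7⟩
        have := h2 _ h7
        omega
      · refine ⟨by omega, ?_⟩
        rintro ⟨h4, h5⟩
        have := h2 _ h5
        omega
      · refine ⟨by omega, ?_⟩
        rintro ⟨h4, h5⟩
        rw [show 3 ^ j - (3 ^ j - y) = y by omega] at h5
        exact h3.2 h5
      · refine ⟨by omega, ?_⟩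
        rintro ⟨h4, h5⟩
        have := h1 _ h5
        omega
      · refine ⟨by omega, ?_⟩
        rintro ⟨h4, h5⟩
        have := h1 _ h5
        omega
  rw [e1]
  apply good_union (good_union h hX _) (good_union hZ hP _)
  · rw [Finset.disjoint_left]
    intro x hx hx'
    simp only [Finset.mem_union, Finset.mem_erase, Finset.mem_Icc, Finset.mem_sdiff,
      Finset.mem_singleton, Finset.mem_image] at hx hx'
    rcases hx with (hx | hx) | hx | ⟨y, hy, rfl⟩
    · omega
    · have := h2 _ hx
      omega
    · omega
    · omega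
  · rw [Finset.disjoint_left]
    intro x hx hx'
    simp only [Finset.mem_union, Finset.mem_Icc, Finset.mem_sdiff, Finset.mem_image] at hx hx'
    rcases hx with hx | hx
    · rcases hx' with hx' | ⟨y, hy, rfl⟩
      · omega
      · omega
    · have := h2 _ hx
      rcases hx' with hx' | ⟨y, hy, rfl⟩
      · exact hx'.2 hx
      · omega
  · rw [Finset.disjoint_left]
    intro x hx hx'
    simp only [Finset.mem_erase, Finset.mem_singleton] at hx hx'
    exact hx.1 hx'

/-- the step from `s` to `3 ^ m + s` -/
theorem top_add {m s e : ℕ} {T : Finset ℕ} (hs : 2 * s < 3 ^ m) (h : Top s e T) :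
    Top (3 ^ m + s) (3 ^ m + e) (T.image fun σ => 2 * 3 ^ m + σ) := by
  have hm : 3 ^ m % 3 = 0 := by
    rcases m with _ | m
    · have := h.lt
      simp at hs
      omega
    · rw [pow_succ]; omega
  have hlow : ∀ B, Low B (T.image fun σ => 2 * 3 ^ m + σ) = Low (B - 2 * 3 ^ m) T := by
    intro B
    simp only [Low, Finset.image_image]
    apply Finset.image_congr
    intro σ _
    show B - (2 * 3 ^ m + σ) = B - 2 * 3 ^ m - σ
    omega
  have hmod := h.mod
  have hlt := h.lt
  refine ⟨by omega, by omega, ?_, ?_, ?_, ?_⟩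
  · intro σ hσ
    obtain ⟨τ, hτ, rfl⟩ := Finset.mem_image.1 hσ
    have := h.gt τ hτ
    omega
  · intro σ hσ
    obtain ⟨τ, hτ, rfl⟩ := Finset.mem_image.1 hσ
    have := h.lt' τ hτ
    omega
  · intro A B j h1 h2 h3
    rw [hlow]
    have := h.pairs (A + 3 ^ m) (B - 2 * 3 ^ m) j (by omega) (by omega) (by omega)
    rwa [show A + 3 ^ m + e + 1 = A + (3 ^ m + e) + 1 by ring,
      show A + 3 ^ m + s = A + (3 ^ m + s) by ring] at this
  · intro j hj
    have hmj : m < j := by
      by_contra hc
      have : 3 ^ j ≤ 3 ^ m := Nat.pow_le_pow_right (by norm_num) (by omega)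
      omega
    have hK := h.compl m hs
    have hleq : ∀ σ ∈ T, σ ≤ 3 ^ m := fun σ hσ => by have := h.lt' σ hσ; omega
    obtain ⟨i, rfl⟩ : ∃ i, j = m + 1 + i := ⟨j - (m + 1), by omega⟩
    rcases i with _ | i
    · rw [hlow, add_zero, show 3 ^ (m + 1) - 2 * 3 ^ m = 3 ^ m by rw [pow_succ]; omega]
      obtain ⟨k, hk⟩ : ∃ k, 3 ^ m + e = 3 * k := ⟨(3 ^ m + e) / 3, by omega⟩
      have hp : 3 ^ (m + 1) = 3 * 3 ^ m := by rw [pow_succ]; ring
      have hZ := good_zero (m + 1) k (by omega)
      rw [← hk] at hZ
      have hP := good_single (m + 1)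
      have hY := good_sym (m + 1) (3 ^ m + e + 1) (2 * 3 ^ m - e - 1) (by omega)
      have e1 : Finset.Icc 1 (3 ^ (m + 1) + (3 ^ m + e)) \ Low (3 ^ m) T =
          ((Finset.Icc 1 (3 ^ m + e) \ Low (3 ^ m) T) ∪
            Finset.Icc (3 ^ m + e + 1) (2 * 3 ^ m - e - 1)) ∪
          ((Finset.Icc (3 ^ (m + 1) - (3 ^ m + e)) (3 ^ (m + 1) + (3 ^ m + e))).erase (3 ^ (m + 1)) ∪
            {3 ^ (m + 1)}) := by
        ext x
        simp only [Finset.mem_sdiff, Finset.mem_union, Finset.mem_erase, Finset.mem_Icc,
          Finset.mem_singleton]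
        rw [mem_low hleq]
        constructor
        · rintro ⟨h3, h4⟩
          by_cases h5 : x ≤ 3 ^ m + e
          · exact Or.inl (Or.inl ⟨⟨h3.1, h5⟩, h4⟩)
          · by_cases h6 : x ≤ 2 * 3 ^ m - e - 1
            · exact Or.inl (Or.inr (by omega))
            · by_cases h7 : x = 3 ^ (m + 1)
              · exact Or.inr (Or.inr h7)
              · exact Or.inr (Or.inl (by omega))
        · rintro ((h3 | h3) | h3 | h3)
          · exact ⟨by omega, h3.2⟩
          · exact ⟨by omega, by omega⟩
          · exact ⟨by omega, by omega⟩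
          · exact ⟨by omega, by omega⟩
      rw [e1]
      apply good_union (good_union hK hY _) (good_union hZ hP _)
      · rw [Finset.disjoint_left]
        intro x hx hx'
        simp only [Finset.mem_union, Finset.mem_erase, Finset.mem_Icc, Finset.mem_sdiff,
          Finset.mem_singleton] at hx hx'
        omega
      · rw [Finset.disjoint_left]
        intro x hx hx'
        simp only [Finset.mem_Icc, Finset.mem_sdiff] at hx hx'
        omega
      · rw [Finset.disjoint_left]
        intro x hx hx'
        simp only [Finset.mem_erase, Finset.mem_singleton] at hx hx'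
        exact hx.1 hx'
    · have hp : 3 ^ (m + 1) = 3 * 3 ^ m := by rw [pow_succ]; ring
      have hp2 : 3 * 3 ^ (m + 1) ≤ 3 ^ (m + 1 + (i + 1)) := by
        rw [show m + 1 + (i + 1) = (m + 1) + 1 + i by ring, pow_add 3 (m + 1 + 1) i,
          pow_succ 3 (m + 1)]
        have : 1 ≤ 3 ^ i := Nat.one_le_pow _ _ (by norm_num)
        nlinarith
      apply good_add
      · omega
      · omega
      · intro σ hσ
        obtain ⟨τ, hτ, rfl⟩ := Finset.mem_image.1 hσ
        omega
      · intro σ hσ
        obtain ⟨τ, hτ, rfl⟩ := Finset.mem_image.1 hσ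
        have := h.lt' τ hτ
        omega
      · have hX := good_refl (m + 1) (Low (3 ^ m) T) (by
          intro x hx
          rw [mem_low hleq] at hx
          omega)
        have e1 : Finset.Icc 1 (3 ^ m + e) ∪ T.image (fun σ => 2 * 3 ^ m + σ) =
            (Finset.Icc 1 (3 ^ m + e) \ Low (3 ^ m) T) ∪
              (Low (3 ^ m) T ∪ (Low (3 ^ m) T).image fun x => 3 ^ (m + 1) - x) := by
          have e2 : (Low (3 ^ m) T).image (fun x => 3 ^ (m + 1) - x) =
              T.image fun σ => 2 * 3 ^ m + σ := by
            rw [Low, Finset.image_image]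
            apply Finset.image_congr
            intro σ hσ
            have := hleq σ hσ
            show 3 ^ (m + 1) - (3 ^ m - σ) = 2 * 3 ^ m + σ
            omega
          rw [e2, ← Finset.union_assoc, Finset.sdiff_union_of_subset]
          intro x hx
          rw [mem_low hleq] at hx
          rw [Finset.mem_Icc]
          have := h.lt' _ hx.2
          omega
        rw [e1]
        apply good_union hK hX
        rw [Finset.disjoint_left]
        intro x hx hx'
        simp only [Finset.mem_sdiff, Finset.mem_union, Finset.mem_image, Finset.mem_Icc] at hx hx'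
        rcases hx' with hx' | ⟨y, hy, rfl⟩
        · exact hx.2 hx'
        · rw [mem_low hleq] at hy
          have := h.gt _ hy.2
          omega

theorem pow_mod {m : ℕ} (h : 2 ≤ 3 ^ m) : 3 ^ m % 3 = 0 := by
  rcases m with _ | m
  · simp at h
  · rw [pow_succ]; omega

theorem three_le {m j : ℕ} (h : 3 ^ m < 3 ^ j) : 3 * 3 ^ m ≤ 3 ^ j := by
  have h1 : m < j := by
    by_contra hc
    have : 3 ^ j ≤ 3 ^ m := Nat.pow_le_pow_right (by norm_num) (by omega)
    omega
  obtain ⟨i, rfl⟩ : ∃ i, j = m + 1 + i := ⟨j - (m + 1), by omega⟩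
  rw [pow_add, pow_succ]
  have : 1 ≤ 3 ^ i := Nat.one_le_pow _ _ (by norm_num)
  nlinarith [Nat.zero_le (3 ^ m)]

/-- the number of pairs is odd -/
theorem top_odd (m d g : ℕ) (hq : 3 ^ m = 2 * d + 4 * g + 1) (hd : d % 3 = 1) (hg : g % 3 = 0)
    (h : Good (Finset.Icc 1 (d - 1))) :
    Top (d + 4 * g + 1) (d - 1) (Finset.Icc (3 ^ m - g) (3 ^ m + g)) := by
  refine ⟨by omega, by omega, ?_, ?_, ?_, ?_⟩
  · intro σ hσ
    rw [Finset.mem_Icc] at hσ
    omega
  · intro σ hσ
    rw [Finset.mem_Icc] at hσ
    omega
  · intro A B j h1 h2 h3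
    have e1 : Finset.Icc (A + (d - 1) + 1) (A + (d + 4 * g + 1)) ∪
        Low B (Finset.Icc (3 ^ m - g) (3 ^ m + g)) =
        ((Finset.range (g + 1)).biUnion fun t =>
          {A + (d + 2 * t), A + (d + 3 * g + 1 - t), B - (3 ^ m - g + t)}) ∪
        ((Finset.range g).biUnion fun t =>
          {A + (d + 2 * t + 1), A + (d + 4 * g + 1 - t), B - (3 ^ m + t + 1)}) := by
      ext x
      simp only [Finset.mem_Icc, Finset.mem_union, Finset.mem_biUnion, Finset.mem_range,
        Finset.mem_insert, Finset.mem_singleton]
      rw [mem_low (fun σ hσ => by rw [Finset.mem_Icc] at hσ; omega), Finset.mem_Icc]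
      generalize 3 ^ m = q at hq ⊢
      constructor
      · rintro (h4 | h4)
        · rcases Nat.lt_or_ge (A + d + 3 * g + 1) x with h5 | h5
          · exact Or.inr ⟨A + d + 4 * g + 1 - x, by omega, by omega⟩
          · rcases Nat.lt_or_ge (A + d + 2 * g) x with h6 | h6
            · exact Or.inl ⟨A + d + 3 * g + 1 - x, by omega, by omega⟩
            · rcases Nat.even_or_odd' (x - (A + d)) with ⟨t, ht | ht⟩
              · exact Or.inl ⟨t, by omega, by omega⟩
              · exact Or.inr ⟨t, by omega, by omega⟩
        · rcases Nat.lt_or_ge q (B - x) with h5 | h5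
          · exact Or.inr ⟨B - x - q - 1, by omega, by omega⟩
          · exact Or.inl ⟨B - x + g - q, by omega, by omega⟩
      · rintro (⟨t, ht, hx⟩ | ⟨t, ht, hx⟩) <;> omega
    rw [e1]
    apply good_union
    · refine good_triples (g + 1) j (fun t => A + (d + 2 * t)) (fun t => A + (d + 3 * g + 1 - t))
        (fun t => B - (3 ^ m - g + t)) (by intro x; simp) ?_ ?_
      · intro t ht
        omega
      · intro t ht u hu htu
        omega
    · refine good_triples g j (fun t => A + (d + 2 * t + 1)) (fun t => A + (d + 4 * g + 1 - t))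
        (fun t => B - (3 ^ m + t + 1)) (by intro x; simp) ?_ ?_
      · intro t ht
        omega
      · intro t ht u hu htu
        omega
    · rw [Finset.disjoint_left]
      intro x hx hx'
      simp only [Finset.mem_biUnion, Finset.mem_range, Finset.mem_insert, Finset.mem_singleton]
        at hx hx'
      obtain ⟨t, ht, hx⟩ := hx
      obtain ⟨u, hu, hx'⟩ := hx'
      omega
  · intro j hj
    have h3 := three_le (m := m) (j := j) (by omega)
    apply good_add
    · omega
    · omega
    · intro σ hσ
      rw [Finset.mem_Icc] at hσ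
      omega
    · intro σ hσ
      rw [Finset.mem_Icc] at hσ
      omega
    · obtain ⟨k, rfl⟩ : ∃ k, g = 3 * k := ⟨g / 3, by omega⟩
      have hZ := good_zero m k (by omega)
      have e1 : Finset.Icc (3 ^ m - 3 * k) (3 ^ m + 3 * k) =
          (Finset.Icc (3 ^ m - 3 * k) (3 ^ m + 3 * k)).erase (3 ^ m) ∪ {3 ^ m} := by
        ext x
        simp only [Finset.mem_union, Finset.mem_erase, Finset.mem_Icc, Finset.mem_singleton]
        omega
      rw [e1]
      apply good_union h (good_union hZ (good_single m) _)
      · rw [Finset.disjoint_left]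
        intro x hx hx'
        simp only [Finset.mem_union, Finset.mem_erase, Finset.mem_Icc, Finset.mem_singleton]
          at hx hx'
        omega
      · rw [Finset.disjoint_left]
        intro x hx hx'
        simp only [Finset.mem_erase, Finset.mem_singleton] at hx hx'
        exact hx.1 hx'

/-- the number of pairs is even -/
theorem top_even (m d M : ℕ) (hq : 3 ^ m + 1 = 2 * d + 4 * M) (hd : d % 3 = 1) (hM : M % 3 = 2)
    (h : Good (Finset.Icc 1 (d - 1))) :
    Top (d + 4 * M - 1) (d - 1)
      (insert (3 ^ m - (2 * M - 1)) (Finset.Icc (3 ^ m - (M - 2)) (3 ^ m + M))) := by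
  refine ⟨by omega, by omega, ?_, ?_, ?_, ?_⟩
  · intro σ hσ
    rw [Finset.mem_insert, Finset.mem_Icc] at hσ
    omega
  · intro σ hσ
    rw [Finset.mem_insert, Finset.mem_Icc] at hσ
    omega
  · intro A B j h1 h2 h3
    have e1 : Finset.Icc (A + (d - 1) + 1) (A + (d + 4 * M - 1)) ∪
        Low B (insert (3 ^ m - (2 * M - 1)) (Finset.Icc (3 ^ m - (M - 2)) (3 ^ m + M))) =
        {A + d, A + (d + 2 * M), B - (3 ^ m - (2 * M - 1))} ∪
        (((Finset.range M).biUnion fun t =>
          {A + (d + 1 + 2 * t), A + (d + 3 * M - t), B - (3 ^ m - (M - 2) + t)}) ∪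
        ((Finset.range (M - 1)).biUnion fun t =>
          {A + (d + 2 * t + 2), A + (d + 4 * M - 1 - t), B - (3 ^ m + 2 + t)})) := by
      ext x
      simp only [Finset.mem_Icc, Finset.mem_union, Finset.mem_biUnion, Finset.mem_range,
        Finset.mem_insert, Finset.mem_singleton]
      rw [mem_low (fun σ hσ => by rw [Finset.mem_insert, Finset.mem_Icc] at hσ; omega),
        Finset.mem_insert, Finset.mem_Icc]
      generalize 3 ^ m = q at hq ⊢
      constructor
      · rintro (h4 | h4)
        · rcases Nat.lt_or_ge (A + d + 3 * M) x with h5 | h5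
          · exact Or.inr (Or.inr ⟨A + d + 4 * M - 1 - x, by omega, by omega⟩)
          · rcases Nat.lt_or_ge (A + d + 2 * M) x with h6 | h6
            · exact Or.inr (Or.inl ⟨A + d + 3 * M - x, by omega, by omega⟩)
            · rcases Nat.even_or_odd' (x - (A + d)) with ⟨t, ht | ht⟩
              · rcases t with _ | t
                · exact Or.inl (by omega)
                · by_cases h7 : t + 1 = M
                  · exact Or.inl (by omega)
                  · exact Or.inr (Or.inr ⟨t, by omega, by omega⟩)
              · exact Or.inr (Or.inl ⟨t, by omega, by omega⟩)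
        · rcases Nat.lt_or_ge (q + 1) (B - x) with h5 | h5
          · exact Or.inr (Or.inr ⟨B - x - q - 2, by omega, by omega⟩)
          · by_cases h6 : B - x = q - (2 * M - 1)
            · exact Or.inl (by omega)
            · exact Or.inr (Or.inl ⟨B - x + (M - 2) - q, by omega, by omega⟩)
      · rintro (hx | ⟨t, ht, hx⟩ | ⟨t, ht, hx⟩) <;> omega
    rw [e1]
    apply good_union
    · exact good_triple j (by omega) (by omega) (by omega) (by omega)
    · apply good_union
      · refine good_triples M j (fun t => A + (d + 1 + 2 * t)) (fun t => A + (d + 3 * M - t))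
          (fun t => B - (3 ^ m - (M - 2) + t)) (by intro x; simp) ?_ ?_
        · intro t ht
          omega
        · intro t ht u hu htu
          omega
      · refine good_triples (M - 1) j (fun t => A + (d + 2 * t + 2))
          (fun t => A + (d + 4 * M - 1 - t)) (fun t => B - (3 ^ m + 2 + t)) (by intro x; simp) ?_ ?_
        · intro t ht
          omega
        · intro t ht u hu htu
          omega
      · rw [Finset.disjoint_left]
        intro x hx hx'
        simp only [Finset.mem_biUnion, Finset.mem_range, Finset.mem_insert, Finset.mem_singleton]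
          at hx hx'
        obtain ⟨t, ht, hx⟩ := hx
        obtain ⟨u, hu, hx'⟩ := hx'
        omega
    · rw [Finset.disjoint_left]
      intro x hx hx'
      simp only [Finset.mem_union, Finset.mem_biUnion, Finset.mem_range, Finset.mem_insert,
        Finset.mem_singleton] at hx hx'
      rcases hx' with ⟨u, hu, hx'⟩ | ⟨u, hu, hx'⟩ <;> omega
  · intro j hj
    have h3 := three_le (m := m) (j := j) (by omega)
    apply good_add
    · omega
    · omega
    · intro σ hσ
      rw [Finset.mem_insert, Finset.mem_Icc] at hσ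
      omega
    · intro σ hσ
      rw [Finset.mem_insert, Finset.mem_Icc] at hσ
      omega
    · obtain ⟨k, rfl⟩ : ∃ k, M = 3 * k + 2 := ⟨M / 3, by omega⟩
      have hZ := good_zero m k (by omega)
      have e1 : insert (3 ^ m - (2 * (3 * k + 2) - 1))
          (Finset.Icc (3 ^ m - (3 * k + 2 - 2)) (3 ^ m + (3 * k + 2))) =
          ((Finset.Icc (3 ^ m - 3 * k) (3 ^ m + 3 * k)).erase (3 ^ m) ∪ {3 ^ m}) ∪
          {3 ^ m - (2 * (3 * k + 2) - 1), 3 ^ m + (3 * k + 1), 3 ^ m + (3 * k + 2)} := by
        ext x
        simp only [Finset.mem_union, Finset.mem_erase, Finset.mem_Icc, Finset.mem_singleton,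
          Finset.mem_insert]
        omega
      rw [e1]
      have hp : 3 ^ (m + 1) = 3 * 3 ^ m := by rw [pow_succ]; ring
      apply good_union h (good_union (good_union hZ (good_single m) _) (good_triple (m + 1)
        (by omega) (by omega) (by omega) (by omega)) _)
      · rw [Finset.disjoint_left]
        intro x hx hx'
        simp only [Finset.mem_union, Finset.mem_erase, Finset.mem_Icc, Finset.mem_singleton,
          Finset.mem_insert] at hx hx'
        omega
      · rw [Finset.disjoint_left]
        intro x hx hx'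
        simp only [Finset.mem_erase, Finset.mem_singleton] at hx hx'
        exact hx.1 hx'
      · rw [Finset.disjoint_left]
        intro x hx hx'
        simp only [Finset.mem_union, Finset.mem_erase, Finset.mem_Icc, Finset.mem_singleton,
          Finset.mem_insert] at hx hx'
        omega

theorem main (n : ℕ) : Good (Finset.Icc 1 n) ∧ (n % 3 = 2 → ∃ e T, Top n e T) := by
  induction n using Nat.strong_induction_on with
  | _ n ih =>
    rcases Nat.eq_zero_or_pos n with rfl | hn
    · refine ⟨?_, by omega⟩
      rw [Finset.Icc_eq_empty (by omega)]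
      exact good_empty
    · -- the largest power of three which is at most `n`
      have h0 := Nat.pow_log_le_self 3 hn.ne'
      have h1 := Nat.lt_pow_succ_log_self (b := 3) (by norm_num) n
      generalize Nat.log 3 n = m at h0 h1
      have hp : 3 ^ (m + 1) = 3 * 3 ^ m := by rw [pow_succ]; ring
      have hodd := pow_odd (m + 1)
      have hoddm := pow_odd m
      have hmod := pow_mod (m := m + 1)
      rcases Nat.lt_or_ge (2 * n) (3 ^ (m + 1)) with h2 | h2
      · -- `n = 3 ^ m + s`
        obtain ⟨s, rfl⟩ : ∃ s, n = 3 ^ m + s := ⟨n - 3 ^ m, by omega⟩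
        have hpos : 0 < 3 ^ m := Nat.pos_of_ne_zero (by positivity)
        have hs : 2 * s < 3 ^ m := by omega
        have hmm : m = 0 ∨ 3 ^ m % 3 = 0 := by
          rcases m with _ | m
          · exact Or.inl rfl
          · right; rw [pow_succ]; omega
        have hsym := good_sym m (s + 1) (3 ^ m - s - 1) (by omega)
        have ihs := (ih s (by omega)).1
        refine ⟨?_, ?_⟩
        · have hcases : s % 3 = 0 ∨ s % 3 = 1 ∨ s % 3 = 2 := by omega
          rcases hcases with h3 | h3 | h3
          · obtain ⟨k, rfl⟩ : ∃ k, s = 3 * k := ⟨s / 3, by omega⟩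
            have hZ := good_zero m k (by omega)
            have e1 : Finset.Icc 1 (3 ^ m + 3 * k) =
                (Finset.Icc 1 (3 * k) ∪ Finset.Icc (3 * k + 1) (3 ^ m - 3 * k - 1)) ∪
                ((Finset.Icc (3 ^ m - 3 * k) (3 ^ m + 3 * k)).erase (3 ^ m) ∪ {3 ^ m}) := by
              ext x
              simp only [Finset.mem_union, Finset.mem_erase, Finset.mem_Icc, Finset.mem_singleton]
              omega
            rw [e1]
            apply good_union (good_union ihs hsym _) (good_union hZ (good_single m) _)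
            · rw [Finset.disjoint_left]
              intro x hx hx'
              simp only [Finset.mem_union, Finset.mem_erase, Finset.mem_Icc, Finset.mem_singleton]
                at hx hx'
              omega
            · rw [Finset.disjoint_left]
              intro x hx hx'
              simp only [Finset.mem_Icc] at hx hx'
              omega
            · rw [Finset.disjoint_left]
              intro x hx hx'
              simp only [Finset.mem_erase, Finset.mem_singleton] at hx hx'
              exact hx.1 hx'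
          · obtain ⟨k, rfl⟩ : ∃ k, s = 3 * k + 1 := ⟨s / 3, by omega⟩
            have hZ := good_one m k (by omega)
            have e1 : Finset.Icc 1 (3 ^ m + (3 * k + 1)) =
                (Finset.Icc 1 (3 * k + 1) ∪ Finset.Icc (3 * k + 1 + 1) (3 ^ m - (3 * k + 1) - 1)) ∪
                Finset.Icc (3 ^ m - (3 * k + 1)) (3 ^ m + (3 * k + 1)) := by
              ext x
              simp only [Finset.mem_union, Finset.mem_Icc]
              omega
            rw [e1]
            have hd : Disjoint (Finset.Icc 1 (3 * k + 1))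
                (Finset.Icc (3 * k + 1 + 1) (3 ^ m - (3 * k + 1) - 1)) := by
              rw [Finset.disjoint_left]
              intro x hx hx'
              rw [Finset.mem_Icc] at hx hx'
              omega
            apply good_union (good_union ihs hsym hd) hZ
            rw [Finset.disjoint_left]
            intro x hx hx'
            simp only [Finset.mem_union, Finset.mem_Icc] at hx hx'
            omega
          · obtain ⟨e, T, hT⟩ := (ih s (by omega)).2 h3
            have h4 := hT.pairs (3 ^ m) (3 ^ m) (m + 1) (by omega) le_rfl hs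
            have h5 := hT.compl m hs
            have hle : ∀ σ ∈ T, σ ≤ 3 ^ m := fun σ hσ => by have := hT.lt' σ hσ; omega
            have hlt := hT.lt
            have e1 : Finset.Icc 1 (3 ^ m + s) = (Finset.Icc 1 (3 ^ m + e) \ Low (3 ^ m) T) ∪
                (Finset.Icc (3 ^ m + e + 1) (3 ^ m + s) ∪ Low (3 ^ m) T) := by
              ext x
              simp only [Finset.mem_union, Finset.mem_Icc, Finset.mem_sdiff]
              constructor
              · intro h6
                by_cases h7 : x ∈ Low (3 ^ m) T
                · exact Or.inr (Or.inr h7)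
                · by_cases h8 : x ≤ 3 ^ m + e
                  · exact Or.inl ⟨⟨h6.1, h8⟩, h7⟩
                  · exact Or.inr (Or.inl (by omega))
              · rintro (h6 | h6 | h6)
                · omega
                · omega
                · rw [mem_low hle] at h6
                  have := hT.lt' _ h6.2
                  omega
            rw [e1]
            apply good_union h5 h4
            rw [Finset.disjoint_left]
            intro x hx hx'
            simp only [Finset.mem_union, Finset.mem_Icc, Finset.mem_sdiff] at hx hx'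
            rcases hx' with hx' | hx'
            · omega
            · exact hx.2 hx'
        · intro hn2
          have h3 : s % 3 = 2 := by
            rcases hmm with rfl | hmm
            · simp at hs
              subst hs
              simp at hn2
            · omega
          obtain ⟨e, T, hT⟩ := (ih s (by omega)).2 h3
          exact ⟨_, _, top_add hs hT⟩
      · -- a power `3 ^ (m + 1)` with `n < 3 ^ (m + 1) ≤ 2 * n`
        have hsym := good_sym (m + 1) (3 ^ (m + 1) - n) n (by omega)
        have ihs := (ih (3 ^ (m + 1) - n - 1) (by omega)).1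
        refine ⟨?_, ?_⟩
        · have e1 : Finset.Icc 1 n = Finset.Icc 1 (3 ^ (m + 1) - n - 1) ∪
              Finset.Icc (3 ^ (m + 1) - n) n := by
            ext x
            simp only [Finset.mem_union, Finset.mem_Icc]
            omega
          rw [e1]
          apply good_union ihs hsym
          rw [Finset.disjoint_left]
          intro x hx hx'
          simp only [Finset.mem_Icc] at hx hx'
          omega
        · intro hn2
          have h4 := hmod (by omega)
          rcases Nat.even_or_odd' ((2 * n - 3 ^ (m + 1) + 1) / 2) with ⟨M, hM | hM⟩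
          · have := top_even (m + 1) (3 ^ (m + 1) - n) M (by omega) (by omega) (by omega) ihs
            rw [show 3 ^ (m + 1) - n + 4 * M - 1 = n by omega] at this
            exact ⟨_, _, this⟩
          · have := top_odd (m + 1) (3 ^ (m + 1) - n) M (by omega) (by omega) (by omega) ihs
            rw [show 3 ^ (m + 1) - n + 4 * M + 1 = n by omega] at this
            exact ⟨_, _, this⟩

/-- every `{1, …, n}` has a 3-good partition -/
theorem result (n : ℕ) (_hn : 0 < n) : ∃ P : Finpartition (Finset.Icc 1 n),
    ∀ p ∈ P.parts, 1 ≤ p.card ∧ p.card ≤ 3 ∧ ∃ j : ℕ, ∑ x ∈ p, x = 3 ^ j := by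
  obtain ⟨P, hP⟩ := (main n).1
  refine ⟨P, fun p hp => ⟨?_, hP p hp⟩⟩
  exact Finset.card_pos.2 (P.nonempty_of_mem_parts hp)

end Pool.Agent.Results.MP_b44c8b_co.EveryIntervalThreeGood
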